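import Pool.Agent.P.MP_d483fb_an.Z.LS.Defs
import Pool.Agent.P.MP_d483fb_an.Z.Su.Base

/-!
The objects that are passed between the parts of the proof.
-/

open scoped Manifold ContDiff InnerProductSpace RealInnerProductSpace Topology
open MeasureTheory Filter Set

noncomputable section

namespace Pool.Agent.P.MP_d483fb_an.Z

/-- A smooth embedding in a Euclidean space which induces the metric. -/
structure Emb (m : ℕ) (M : Type) [MetricSpace M] [ChartedSpace (EuclideanSpace ℝ (Fin m)) M] where
  N : ℕ
  ι : M → EuclideanSpace ℝ (Fin N)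
  smooth : ContMDiff (𝓡 m) (𝓡 N) ∞ ι
  dist_eq : ∀ p q, dist p q = ‖ι p - ι q‖
  imm : ∀ p, Function.Injective (mfderiv (𝓡 m) (𝓡 N) ι p)

/-- `X` is the suspension of the action `α`, seen as a measurable skew product. -/
structure Skw {G : Type} [Group G] [TopologicalSpace G] [IsTopologicalGroup G] [T2Space G]
    [MeasurableSpace G] [BorelSpace G] (L : Lat G) {M : Type} [MeasurableSpace M]
    (α : L.Γ →* Equiv.Perm M) (X : Type) [MeasurableSpace X] [MulAction G X] where
  e : X ≃ᵐ L.B × M
  smul : ∀ (g : G) x, e (g • x) = (g • (e x).1, α (L.c g (e x).1) (e x).2)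

/-- The projection of the suspension on the base. -/
def Skw.π {G : Type} [Group G] [TopologicalSpace G] [IsTopologicalGroup G] [T2Space G]
    [MeasurableSpace G] [BorelSpace G] {L : Lat G} {M : Type} [MeasurableSpace M]
    {α : L.Γ →* Equiv.Perm M} {X : Type} [MeasurableSpace X] [MulAction G X] (E : Skw L α X)
    (x : X) : L.B := (E.e x).1

namespace Std

variable {G : Type} [Group G] [TopologicalSpace G] {n k : ℕ} (D : Std G n k)

/-- `ν` is invariant under the Cartan subgroup. -/
def InvA {X : Type} [MeasurableSpace X] [MulAction G X] (ν : Measure X) : Prop :=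
  ∀ s, MeasurePreserving (fun x : X => D.a s • x) ν ν

/-- `ν` is ergodic for the Cartan subgroup. -/
def ErgA {X : Type} [MeasurableSpace X] [MulAction G X] (ν : Measure X) : Prop :=
  ∀ U : Set X, MeasurableSet U → (∀ s, (fun x : X => D.a s • x) ⁻¹' U =ᵐ[ν] U) →
    ν U = 0 ∨ ν Uᶜ = 0

/-- Every `A`-invariant ergodic measure over `m0` has `m` exponents and, for a dense set of
directions, an unstable leaf structure whose linear fibre weights are among the exponents. -/
def HasGeo (m : ℕ) {B X : Type} [TopologicalSpace B] [MeasurableSpace B] [MulAction G B]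
    [MetricSpace X] [MeasurableSpace X] [MulAction G X] (π : X → B) (m0 : Measure B) : Prop :=
  ∀ ν : Measure X, IsProbabilityMeasure ν → ν.map π = m0 → D.InvA ν → D.ErgA ν →
    ∃ w : Fin m → Euc k, ∀ O : Set (Euc k), IsOpen O → O.Nonempty →
      ∃ (κ : Type) (_ : Fintype κ) (_ : DecidableEq κ) (S : GeoLS D B X ν κ), S.Ha ∈ O ∧
        ∀ β, Nat.card {j : κ // j ∈ S.k1 ∧ S.om (.inr j) = β} ≤ Nat.card {i // w i = β}

/-- Invariance under a one parameter group in every coarse root group whose dimension exceeds the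
number of exponents that are positive multiples of the root. -/
def ThmD (m : ℕ) {B X : Type} [MeasurableSpace B] [MeasurableSpace X] [MulAction G X]
    (π : X → B) (m0 : Measure B) : Prop :=
  ∀ ν : Measure X, IsProbabilityMeasure ν → ν.map π = m0 → D.InvA ν → D.ErgA ν →
    ∃ w : Fin m → Euc k, ∀ β ∈ D.roots, Nat.card {i // w i ∈ cls β} < Module.finrank ℝ (D.u β) →
      ∃ c : ℝ, 0 < c ∧ ∃ Y ∈ D.gr (c • β), Y ≠ 0 ∧
        ∀ t : ℝ, MeasurePreserving (fun x : X => D.ex (t • Y) • x) ν ν

end Std

end Pool.Agent.P.MP_d483fb_an.Z
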