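import Pool.Agent.P.MP_d483fb_an.Z.Path.Geo
import Pool.Agent.P.MP_d483fb_an.Z.EM.Equi
import Pool.Agent.P.MP_d483fb_an.Z.Su.Len2
import Pool.Agent.P.MP_d483fb_an.Z.SR.GlueLat
import Pool.Agent.P.MP_d483fb_an.Z.Br.Stmt

/-! Subadditive functions on a lattice are at most linear in the norm. -/

open MeasureTheory

set_option linter.unusedSectionVars false

namespace Pool.Agent.P.MP_d483fb_an.Z

variable {G : Type} [Group G] [TopologicalSpace G] [IsTopologicalGroup G] [ConnectedSpace G]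
  [T2Space G] [LocallyCompactSpace G] [SecondCountableTopology G] [MeasurableSpace G]
  [BorelSpace G] {n k : ℕ}

theorem Std.lmr_lat (D : Std G n k) (Γ : Subgroup G) [DiscreteTopology Γ]
    (m0 : Measure (D.lat Γ).B) [IsProbabilityMeasure m0] [SMulInvariantMeasure G (D.lat Γ).B m0]
    (F : Γ → ℝ) (hF : ∀ γ γ', F (γ * γ') ≤ F γ + F γ') :
    ∃ C : ℝ, 0 ≤ C ∧ ∀ γ : Γ, F γ ≤ C * (D.len γ + 2) := by
  obtain ⟨S, -, -, ⟨P⟩⟩ := D.geo (D.lat Γ).toLen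
  obtain ⟨E⟩ := D.equi (μ := m0) (D.lat Γ).toLen (D.lat Γ).base
  exact SR.lat_lmr (D.lat Γ) m0 P E F hF

theorem Std.lmr (D : Std G n k) (Γ : Subgroup G) (hΓ : IsLattice Γ) (F : Γ → ℝ)
    (hF : ∀ γ γ', F (γ * γ') ≤ F γ + F γ') : ∃ C, ∀ γ : Γ, F γ ≤ C * (1 + D.len γ) := by
  obtain ⟨hdisc, m0, hm0, hinv⟩ := hΓ
  obtain ⟨C, hC, h⟩ := @Std.lmr_lat G _ _ _ _ _ _ _ _ _ n k D Γ hdisc m0 hm0 hinv F hF
  refine ⟨2 * C, fun γ => (h γ).trans ?_⟩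
  have := mul_nonneg hC (D.len_nonneg γ)
  nlinarith

end Pool.Agent.P.MP_d483fb_an.Z
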